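import Mathlib
import Pool.Agent.H.MP_b9b9c0_an.A

set_option autoImplicit false

namespace Pool.Agent.H.MP_b9b9c0_an

open Filter Topology Metric Complex Set MeasureTheory
open Pool.Agent.H.MP_7a60ac_an

variable {E : Type} [NormedAddCommGroup E] [InnerProductSpace ℂ E] {A : E →L[ℂ] E}

def NA (A : E →L[ℂ] E) (h : E → E) : Prop :=
  DifferentiableOn ℂ h (ball 0 1) ∧ h 0 = 0 ∧ fderiv ℂ h 0 = A ∧
    ∀ z ∈ ball (0 : E) 1, 0 ≤ (inner ℂ z (h z)).re

theorem dg {h : E → E} (hd : DifferentiableOn ℂ h (ball 0 1)) (y : E) {u : E} (hu : ‖u‖ = 1) :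
    DifferentiableOn ℂ (fun t : ℂ => inner ℂ y (h (t • u))) (ball 0 1) :=
  (innerSL ℂ y).differentiable.comp_differentiableOn
    (hd.comp (by fun_prop) fun t ht => by simpa [norm_smul, hu] using ht)

theorem co1 {h : E → E} (hd : DifferentiableOn ℂ h (ball 0 1)) (y u : E) :
    co (fun t : ℂ => inner ℂ y (h (t • u))) 1 = inner ℂ y (fderiv ℂ h 0 u) := by
  have h1 : HasFDerivAt h (fderiv ℂ h 0) ((0 : ℂ) • u) := by
    simpa using (hd.differentiableAt (ball_mem_nhds 0 one_pos)).hasFDerivAt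
  have := ((innerSL ℂ y).hasFDerivAt.comp_hasDerivAt (0 : ℂ)
    (h1.comp_hasDerivAt (0 : ℂ) ((hasDerivAt_id (0 : ℂ)).smul_const u))).deriv
  simpa [co, Function.comp_def] using this

theorem est {h : E → E} (hh : NA A h) {κ r R Y : ℝ} (κ0 : 0 ≤ κ)
    (hκ : ∀ z, (inner ℂ z (A z)).re ≤ κ * ‖z‖ ^ 2) (a0 : ∀ z, 0 ≤ (inner ℂ z (A z)).re) (r0 : 0 < r)
    (R0 : 0 < R) (hR : R ^ 2 = 1 + r ^ 2) {z y : E} (hz : ‖z‖ ≤ 1 / 4) (hy : ‖y‖ ≤ Y) :
    (inner ℂ y (h z - A z)).re ≤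
      Y * (R * ((inner ℂ z (A z)).re + r ^ 2 * κ * ‖z‖ ^ 2) / r + 16 * κ * ‖z‖ ^ 3) := by
  obtain ⟨hd, h0, hD, hp⟩ := hh
  have := a0 z
  refine le_trans ?_ (mul_le_mul_of_nonneg_right hy (by positivity))
  rcases eq_or_ne z 0 with rfl | z0
  · simp [h0]
  rcases eq_or_ne y 0 with rfl | y0
  · simp
  have nm : ∀ {w : E}, w ≠ 0 → ∃ (t : ℝ) (u : E), 0 < t ∧ ‖u‖ = 1 ∧ w = (t : ℂ) • u := fun {w} w0 =>
    ⟨‖w‖, (‖w‖⁻¹ : ℂ) • w, norm_pos_iff.2 w0, by simp [norm_smul, w0], by simp [smul_smul, w0]⟩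
  obtain ⟨t, u, t0, hu, rfl⟩ := nm z0
  obtain ⟨s, v, s0, hv, rfl⟩ := nm y0
  simp only [norm_smul, hu, hv, norm_real, Real.norm_of_nonneg t0.le, Real.norm_of_nonneg s0.le,
    mul_one] at hz ⊢
  have hs := (hasSum_nat_add_iff' 3).2 (reCLM.hasSum (hasSum_taylorSeries_on_ball (dg hd v hu)
    (z := t) (by simpa [abs_of_pos t0] using by linarith)))
  have e : ∀ n, reCLM (((n.factorial : ℂ))⁻¹ • ((t : ℂ) - 0) ^ n •
      iteratedDeriv n (fun t : ℂ => inner ℂ v (h (t • u))) 0) =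
      t ^ n * (co (fun t : ℂ => inner ℂ v (h (t • u))) n).re := fun n => by
    rw [← re_ofReal_mul, co, reCLM_apply]; congr 1; simp; ring
  simp only [e] at hs
  have ku := hκ u
  have kv := hκ v
  rw [hu] at ku; rw [hv] at kv
  have k1 := hasSum_le (fun n => ?_) hs (hasSum_geometric_two.mul_left (8 * κ * t ^ 3))
  · have k2 := key hd h0 hD hp hu hv r0.le R0 hR 0
    simp only [Finset.sum_range_succ, Finset.range_zero, Finset.sum_empty, co1 hd, hD] at k1
    have c0 : co (fun t : ℂ => inner ℂ v (h (t • u))) 0 = 0 := by simp [co, h0]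
    rw [c0, reCLM_apply] at k1
    simp only [inner_smul_left, inner_smul_right, inner_sub_right, map_smul, conj_ofReal, sub_re,
      re_ofReal_mul, zero_add, pow_one, zero_re, mul_zero] at k1 k2 ⊢
    rw [← mul_left_comm s, ← mul_sub]
    refine mul_le_mul_of_nonneg_left ?_ s0.le
    have k3 : (co (fun t : ℂ => inner ℂ v (h (t • u))) 2).re ≤
        R * ((inner ℂ u (A u)).re + r ^ 2 * κ) / r := by
      rw [le_div_iff₀' r0]
      exact k2.trans (by gcongr; linarith)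
    have := mul_le_mul_of_nonneg_left k3 (sq_nonneg t)
    refine le_trans (b := t ^ 2 * (R * ((inner ℂ u (A u)).re + r ^ 2 * κ) / r) + 16 * κ * t ^ 3)
      (by linarith) (le_of_eq (by ring))
  · have k2 := key hd h0 hD hp hu hv zero_le_one (R := √2) (by positivity) (by norm_num) (n + 1)
    have s2 : √2 ≤ 2 := Real.sqrt_le_iff.2 ⟨by norm_num, by norm_num⟩
    have k3 : (co (fun t : ℂ => inner ℂ v (h (t • u))) (n + 3)).re ≤ 2 ^ (n + 2) * (2 * κ) := by
      have := a0 u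
      have := a0 v
      rw [one_mul] at k2
      exact k2.trans (mul_le_mul (pow_le_pow_left₀ (by positivity) s2 _) (by linarith) (by positivity)
        (by positivity))
    have k4 : (2 * t) ^ n ≤ (1 / 2) ^ n := pow_le_pow_left₀ (by positivity) (by linarith) n
    refine (mul_le_mul_of_nonneg_left k3 (by positivity)).trans ?_
    refine le_of_eq_of_le (by rw [mul_pow]; ring) (mul_le_mul_of_nonneg_left k4 (by positivity))

theorem acG {F G : Type} [NormedAddCommGroup F] [NormedSpace ℝ F] [NormedAddCommGroup G]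
    [NormedSpace ℝ G] {g : F → G} (hg : ContDiff ℝ 1 g) {w : ℝ → F} {a b : ℝ}
    (hw : AbsolutelyContinuousOnInterval w a b) :
    AbsolutelyContinuousOnInterval (fun t => g (w t)) a b := by
  obtain ⟨K, hK⟩ := hg.locallyLipschitz.locallyLipschitzOn.exists_lipschitzOnWith_of_compact
    (isCompact_uIcc.image_of_continuousOn hw.continuousOn)
  refine squeeze_zero' (.of_forall fun _ => Finset.sum_nonneg fun _ _ => dist_nonneg) ?_
    (by simpa using Tendsto.const_mul (K : ℝ) hw)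
  filter_upwards [mem_inf_of_right (mem_principal_self _)] with I hI
  rw [Finset.mul_sum]
  exact Finset.sum_le_sum fun i hi =>
    hK.dist_le_mul _ (mem_image_of_mem _ (hI.1 i hi).1) _ (mem_image_of_mem _ (hI.1 i hi).2)

theorem anti {F : Type} [NormedAddCommGroup F] [NormedSpace ℝ F] {g : ℝ × F → ℝ} (hg : ContDiff ℝ 1 g)
    {v : ℝ → F} {T : ℝ} (hT : 0 ≤ T) (hv : AbsolutelyContinuousOnInterval v 0 T)
    (h : ∀ᵐ t, t ∈ Icc 0 T → ∃ d ≤ 0, HasDerivAt (fun t => g (t, v t)) d t) :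
    g (T, v T) ≤ g (0, v 0) := by
  have a : AbsolutelyContinuousOnInterval (fun t => (t, v t)) 0 T := by
    simpa using (ContDiffOn.absolutelyContinuousOnInterval (f := fun t : ℝ => ((t, 0) : ℝ × F))
      (by fun_prop)).fun_add (acG (g := fun z : F => ((0, z) : ℝ × F)) (by fun_prop) hv)
  have := (acG hg a).integral_deriv_eq_sub
  rw [← sub_nonpos, ← this, ← neg_nonneg, ← intervalIntegral.integral_neg]
  refine intervalIntegral.integral_nonneg_of_ae_restrict hT ((ae_restrict_iff' measurableSet_Icc).2 ?_)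
  filter_upwards [h] with t ht hm
  obtain ⟨d, d0, hd⟩ := ht hm
  simpa [hd.deriv] using d0

theorem core [NormedSpace ℝ E] [IsScalarTower ℝ ℂ E] {μ κ r R C θ δ : ℝ} (μ0 : 0 < μ) (mk : μ ≤ κ)
    (hμ : ∀ z, μ * ‖z‖ ^ 2 ≤ (inner ℂ z (A z)).re) (hκ : ∀ z, (inner ℂ z (A z)).re ≤ κ * ‖z‖ ^ 2)
    (h2 : κ < 2 * μ) (r0 : 0 < r) (R0 : 0 < R) (hR : R ^ 2 = 1 + r ^ 2)
    (hC : C * (2 * μ - κ) * r = R * (μ + r ^ 2 * κ)) (θ0 : 0 ≤ θ) (hθ : θ * (κ - μ) = 0) (δ0 : 0 < δ) :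
    ∃ ε > 0, ∀ T, 0 ≤ T → ∀ (h : ℝ → E → E) (v y : ℝ → E), θ * Real.exp ((2 * μ - κ) * T) ≤ 1 →
      ContDiff ℝ 1 y → (∀ t w, inner ℂ (deriv y t) w = inner ℂ (y t) (A w)) →
      (∀ t, 0 ≤ t → ‖y t‖ ≤ Real.exp (κ * t)) → AbsolutelyContinuousOnInterval v 0 T →
      (∀ t ∈ Icc 0 T, v t ∈ ball (0 : E) 1) →
      (∀ᵐ t, t ∈ Icc 0 T → HasDerivAt v (-h t (v t)) t ∧ NA A (h t)) → ‖v 0‖ ≤ ε →
      (inner ℂ (y T) (v T)).re ≤ (inner ℂ (y 0) (v 0)).re + (C + δ) * (1 - θ) * ‖v 0‖ ^ 2 := by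
  have κ0 : 0 < κ := by linarith
  have σ0 := sub_pos.2 h2
  have C0 : 0 < C := (mul_pos_iff_of_pos_right (mul_pos σ0 r0)).1 (by rw [← mul_assoc, hC]; positivity)
  obtain ⟨K, hK⟩ : ∃ K, K = R * (κ + r ^ 2 * κ) / r + 16 * κ := ⟨_, rfl⟩
  have K0 : 0 < K := by rw [hK]; positivity
  refine ⟨min (1 / 4) (δ * (2 * μ - κ) / (16 * κ + 2 * (C + δ) * K)), by positivity,
    fun T hT h v y hθT cy dy ny ac vb ode hε => ?_⟩
  have d2 : ∀ {t w}, HasDerivAt v w t → HasDerivAt (fun t => (inner ℂ (v t) (v t)).re)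
      (2 * (inner ℂ (v t) w).re) t := fun {t w} hd => by
    refine (reCLM.hasFDerivAt.comp_hasDerivAt t (hd.inner ℂ hd)).congr_deriv ?_
    rw [reCLM_apply, add_re, ← inner_conj_symm w, conj_re]; ring
  have ns : ∀ z : E, (inner ℂ z z).re = ‖z‖ ^ 2 := fun z => inner_self_eq_norm_sq (𝕜 := ℂ) z
  have dec : ∀ t ∈ Icc 0 T, ‖v t‖ ≤ ‖v 0‖ := fun t ht => by
    have := anti (g := fun p : ℝ × E => reCLM (inner ℂ p.2 p.2))
      (reCLM.contDiff.comp (contDiff_snd.inner ℂ contDiff_snd)) ht.1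
      (ac.mono (by rw [uIcc_of_le ht.1, uIcc_of_le hT]; exact Icc_subset_Icc_right ht.2)) (by
        filter_upwards [ode] with s hs hm
        have hm' := Icc_subset_Icc_right ht.2 hm
        refine ⟨_, ?_, d2 (hs hm').1⟩
        have := (hs hm').2.2.2.2 _ (vb s hm')
        rw [inner_neg_right, neg_re]; linarith)
    simp only [reCLM_apply, ns] at this
    exact le_of_sq_le_sq this (norm_nonneg _)
  have le : ∀ t ∈ Icc 0 T, θ * Real.exp (2 * μ * t) ≤ Real.exp (κ * t) := fun t ht => by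
    have : θ * Real.exp ((2 * μ - κ) * t) ≤ 1 := le_trans (by gcongr; exact ht.2) hθT
    refine le_of_eq_of_le ?_ ((mul_le_mul_of_nonneg_right this (Real.exp_pos (κ * t)).le).trans_eq
      (one_mul _))
    rw [mul_assoc θ, ← Real.exp_add]; ring_nf
  have := anti (g := fun p : ℝ × E => reCLM (inner ℂ (y p.1) p.2) + (C + δ) *
      ((Real.exp (κ * p.1) - θ * Real.exp (2 * μ * p.1)) * reCLM (inner ℂ p.2 p.2)))
    ((reCLM.contDiff.comp ((cy.comp contDiff_fst).inner ℂ contDiff_snd)).add (contDiff_const.mul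
      (ContDiff.mul (by fun_prop) (reCLM.contDiff.comp (contDiff_snd.inner ℂ contDiff_snd))))) hT ac ?_
  · simp only [reCLM_apply, ns, mul_zero, Real.exp_zero] at this
    have := mul_nonneg (add_pos C0 δ0).le (mul_nonneg (sub_nonneg.2 (le T ⟨hT, le_rfl⟩))
      (sq_nonneg ‖v T‖))
    linarith
  filter_upwards [ode] with t ht hm
  obtain ⟨hd, hn⟩ := ht hm
  refine ⟨_, ?_, (reCLM.hasFDerivAt.comp_hasDerivAt t
    (((cy.differentiable one_ne_zero t).hasDerivAt).inner ℂ hd)).add (((((hasDerivAt_id' t).const_mul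
      κ).exp.sub ((((hasDerivAt_id' t).const_mul (2 * μ)).exp).const_mul θ)).mul (d2 hd)).const_mul _)⟩
  have n4 := (dec t hm).trans (hε.trans (min_le_left _ _))
  have nδ := (le_div_iff₀ (by positivity)).1 ((dec t hm).trans (hε.trans (min_le_right _ _)))
  have a0 : ∀ z, 0 ≤ (inner ℂ z (A z)).re := fun z => le_trans (by positivity) (hμ z)
  have p := est hn κ0.le hκ a0 r0 R0 hR n4 ((norm_neg (y t)).trans_le (ny t hm.1))
  have q := est hn κ0.le hκ a0 r0 R0 hR n4 (norm_neg (v t)).le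
  have l1 := le t hm
  have m1 := hμ (v t)
  have m2 := hκ (v t)
  simp only [reCLM_apply, ns, dy, inner_neg_left, inner_neg_right, inner_sub_right, add_re, neg_re,
    sub_re, Pi.sub_apply, mul_one] at p q ⊢
  have E2 := Real.exp_pos (2 * μ * t)
  have E1 := Real.exp_pos (κ * t)
  have n0 := norm_nonneg (v t)
  generalize (inner ℂ (v t) (A (v t))).re = α at *
  generalize (inner ℂ (v t) (h t (v t))).re = β at *
  generalize Real.exp (2 * μ * t) = e2 at *
  generalize Real.exp (κ * t) = e1 at *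
  generalize ‖v t‖ = n at *
  have q2 : α - β ≤ K * n ^ 3 := by
    have : n * (R * (α + r ^ 2 * κ * n ^ 2) / r + 16 * κ * n ^ 3) ≤
        n * (R * (κ * n ^ 2 + r ^ 2 * κ * n ^ 2) / r + 16 * κ * n ^ 2) := by
      have : n ^ 3 ≤ n ^ 2 := pow_le_pow_of_le_one n0 (by linarith) (by norm_num)
      gcongr
    rw [hK]
    refine le_trans (by linarith) (this.trans_eq (by ring))
  have p2 : R * (α + r ^ 2 * κ * n ^ 2) / r ≤ C * (2 * α - κ * n ^ 2) := by
    rw [div_le_iff₀ r0]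
    refine le_of_mul_le_mul_left ?_ μ0
    have := mul_nonneg (mul_pos (mul_pos R0 κ0) (pow_pos r0 2)).le (sub_nonneg.2 m1)
    have := mul_nonneg (mul_pos (mul_pos C0 κ0) r0).le (sub_nonneg.2 m1)
    linear_combination this + ‹0 ≤ R * κ * r ^ 2 * _› - α * hC
  have t1 : θ * e2 * (α - μ * n ^ 2) ≤ 0 := by
    have := mul_le_mul_of_nonneg_left m2 (mul_nonneg θ0 E2.le)
    linear_combination this + e2 * n ^ 2 * hθ
  have t2 : (e1 - θ * e2) * (α - β) ≤ e1 * (K * n ^ 3) :=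
    (mul_le_mul_of_nonneg_left q2 (sub_nonneg.2 l1)).trans (mul_le_mul_of_nonneg_right
      (by linarith [mul_nonneg θ0 E2.le]) (by positivity))
  have t3 := mul_le_mul_of_nonneg_left p2 E1.le
  have t4 := mul_le_mul_of_nonneg_left nδ (mul_nonneg E1.le (sq_nonneg n))
  have t5 := mul_le_mul_of_nonneg_left m1 (mul_pos E1 δ0).le
  have Cδ := (add_pos C0 δ0).le
  linear_combination p + t3 + t4 + 2 * t5 + 2 * mul_le_mul_of_nonneg_left t1 Cδ +
    2 * mul_le_mul_of_nonneg_left t2 Cδ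

theorem fin {g : ℂ → ℂ} (hg : AnalyticAt ℂ g 0) {B : ℝ} (h : ∀ δ > 0, ∃ ε > 0, ∀ t ∈ Ioo (0 : ℝ) ε,
    (g t).re ≤ (g 0).re + t * (co g 1).re + (B + δ) * t ^ 2) : (co g 2).re ≤ B := by
  obtain ⟨F, hF, e⟩ := hg.exists_eq_sum_add_pow_mul 3
  refine le_of_forall_pos_le_add fun δ δ0 => ?_
  obtain ⟨ε, ε0, hε⟩ := h δ δ0
  have c : Tendsto (fun t : ℝ => (co g 2).re + t * (F t).re) (𝓝 0) (𝓝 ((co g 2).re + 0 * (F 0).re)) :=
    tendsto_const_nhds.add (tendsto_id.mul ((continuous_re.tendsto _).comp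
      (hF.continuousAt.tendsto.comp (continuous_ofReal.tendsto' 0 0 rfl))))
  rw [zero_mul, add_zero] at c
  refine le_of_tendsto (c.mono_left (nhdsWithin_le_nhds (s := Ioi 0))) ?_
  filter_upwards [Ioo_mem_nhdsGT ε0] with t ht
  have e2 : g t = g 0 + t * co g 1 + (t ^ 2 : ℝ) * (co g 2 + t * F t) := by
    rw [e t]; simp [co, Finset.sum_range_succ]; ring
  have := hε t ht
  rw [e2] at this
  simp only [add_re, re_ofReal_mul] at this
  exact le_of_mul_le_mul_left (a := t ^ 2) (by linarith) (pow_pos ht.1 2)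

end Pool.Agent.H.MP_b9b9c0_an
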