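import Mathlib
import Pool.Agent.H.MP_b9b9c0_an.B

set_option autoImplicit false

namespace Pool.Agent.H.MP_b9b9c0_an

open Filter Topology Metric Complex Set MeasureTheory
open Pool.Agent.H.MP_7a60ac_an
open scoped ComplexConjugate InnerProduct

variable {E : Type} [NormedAddCommGroup E] [InnerProductSpace ℂ E] [CompleteSpace E]
  {A : E →L[ℂ] E}

theorem up {f : E → E} (hd : DifferentiableOn ℂ f (ball 0 1)) (h0 : f 0 = 0)
    (hD : fderiv ℂ f 0 = ContinuousLinearMap.id ℂ E) {B : ℝ} (B0 : 0 ≤ B)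
    (H : ∀ δ > 0, ∃ ε > 0, ∀ z ∈ ball (0 : E) 1, ‖z‖ ≤ ε → ∀ y, ‖y‖ = 1 →
      (inner ℂ y (f z)).re ≤ (inner ℂ y z).re + (B + δ) * ‖z‖ ^ 2) {u : E} (hu : ‖u‖ = 1) :
    ‖((2 : ℕ).factorial : ℂ)⁻¹ • iteratedDeriv 2 (fun t : ℂ => f (t • u)) 0‖ ≤ B := by
  have a : AnalyticAt ℂ (fun t : ℂ => f (t • u)) 0 := (hd.comp (by fun_prop) fun t ht => by
    simpa [norm_smul, hu] using ht).analyticAt (ball_mem_nhds 0 one_pos)
  have c : ∀ y, co (fun t => inner ℂ y (f (t • u))) 2 = inner ℂ y (((2 : ℕ).factorial : ℂ)⁻¹ •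
      iteratedDeriv 2 (fun t : ℂ => f (t • u)) 0) := fun y => by
    have := (innerSL ℂ y).iteratedFDeriv_comp_left (a.contDiffAt (n := 2)) (i := 2) (by simp)
    rw [co, inner_smul_right, div_eq_inv_mul, iteratedDeriv, iteratedDeriv]
    exact congrArg _ (congrArg (· fun _ => 1) this)
  generalize ((2 : ℕ).factorial : ℂ)⁻¹ • iteratedDeriv 2 (fun t : ℂ => f (t • u)) 0 = w at c
  rcases eq_or_ne w 0 with rfl | w0
  · rwa [norm_zero]
  have := fin ((dg hd ((‖w‖⁻¹ : ℂ) • w) hu).analyticAt (ball_mem_nhds 0 one_pos)) (B := B) fun δ δ0 => by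
    obtain ⟨ε, ε0, hε⟩ := H δ δ0
    refine ⟨min ε 1, by positivity, fun t ht => ?_⟩
    have n : ‖(t : ℂ) • u‖ = t := by simp [norm_smul, hu, abs_of_pos ht.1]
    have := hε ((t : ℂ) • u) (mem_ball_zero_iff.2 (n.trans_lt (lt_min_iff.1 ht.2).2)) (n.trans_le (lt_min_iff.1 ht.2).1.le)
      ((‖w‖⁻¹ : ℂ) • w) (by simp [norm_smul, w0])
    rw [co1 hd, hD]
    rw [n, inner_smul_right, re_ofReal_mul] at this
    simp only [zero_smul, h0, inner_zero_right, zero_re, zero_add, ContinuousLinearMap.id_apply]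
    exact this
  rw [c, inner_smul_left, inner_self_eq_norm_sq_to_K] at this
  refine le_of_eq_of_le ?_ this
  simp [← ofReal_inv, ← ofReal_pow]; field_simp

theorem shear (e e' : E) (c : ℂ) (he : ‖e'‖ = 1) (A : E →L[ℂ] E) :
    fderiv ℂ (fun z => A z + (c * inner ℂ e' z ^ 2) • e) 0 = A ∧
    ((2 : ℕ).factorial : ℂ)⁻¹ • iteratedDeriv 2 (fun t : ℂ => t • e' + (c * inner ℂ e' (t • e') ^ 2) • e) 0
      = c • e := by
  refine ⟨(A.hasFDerivAt.add ((((innerSL ℂ e').hasFDerivAt.pow 2).const_mul c).smul_const e)).fderiv.trans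
    (by ext; simp), ?_⟩
  have : (fun t : ℂ => t • e' + (c * inner ℂ e' (t • e') ^ 2) • e) =
      fun t : ℂ => t ^ 1 • e' + (c * t ^ 2) • e := by
    simp [inner_self_eq_norm_sq_to_K, he]
  rw [this, iteratedDeriv_fun_add (by fun_prop) (by fun_prop),
    iteratedDeriv_smul_const (by fun_prop), iteratedDeriv_smul_const (by fun_prop),
    iteratedDeriv_const_mul_field, iteratedDeriv_fun_pow_zero, iteratedDeriv_fun_pow_zero]
  simp [smul_smul]; ring_nf

variable [NormedSpace ℝ E] [IsScalarTower ℝ ℂ E]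

noncomputable def U (A : E →L[ℂ] E) (t : ℝ) : E →L[ℂ] E := NormedSpace.exp ((t : ℂ) • A)

theorem dU (A : E →L[ℂ] E) (z : E) (t : ℝ) : HasDerivAt (fun t => U A t z) (A (U A t z)) t := by
  have := (hasDerivAt_exp_smul_const' (𝕂 := ℂ) A (t : ℂ)).clm_apply (hasDerivAt_const _ z)
  simpa [U, Function.comp_def] using
    (this.hasFDerivAt.restrictScalars ℝ).comp_hasDerivAt t ofRealCLM.hasDerivAt

theorem dU' (A : E →L[ℂ] E) (z : E) (t : ℝ) : A (U A t z) = U A t (A z) := by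
  refine (dU A z t).unique ?_
  have := (hasDerivAt_exp_smul_const (𝕂 := ℂ) A (t : ℂ)).clm_apply (hasDerivAt_const _ z)
  simpa [U, Function.comp_def] using
    (this.hasFDerivAt.restrictScalars ℝ).comp_hasDerivAt t ofRealCLM.hasDerivAt

theorem cU (A : E →L[ℂ] E) (z : E) : ContDiff ℝ 1 fun t => U A t z :=
  contDiff_one_iff_deriv.2 ⟨fun t => (dU A z t).differentiableAt, by
    rw [show deriv _ = _ from funext fun t => (dU A z t).deriv]
    exact A.continuous.comp (continuous_iff_continuousAt.2 fun t => (dU A z t).continuousAt)⟩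

theorem U0 (A : E →L[ℂ] E) (z : E) : U A 0 z = z := by simp [U]

theorem Uinv (A : E →L[ℂ] E) (t : ℝ) (z : E) : U A t (U (-A) t z) = z := by
  have r : ∀ x : E →L[ℂ] E, x ∈ eball 0 (NormedSpace.expSeries ℂ (E →L[ℂ] E)).radius := fun x =>
    (NormedSpace.expSeries_radius_eq_top ℂ (E →L[ℂ] E)).symm ▸ edist_lt_top _ _
  have := NormedSpace.exp_add_of_commute_of_mem_ball (𝕂 := ℂ) (x := (t : ℂ) • A) (y := (t : ℂ) • (-A))
    (by simp) (r _) (r _)
  rw [U, U, ← ContinuousLinearMap.mul_apply, ← this]; simp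

theorem eig {F : Type} [NormedAddCommGroup F] [NormedSpace ℂ F] [NormedSpace ℝ F] [IsScalarTower ℝ ℂ F]
    {g : ℝ → F} {c : ℂ} (h : ∀ t, HasDerivAt g (c • g t) t) (t : ℝ) : g t = exp (c * t) • g 0 := by
  have d : ∀ t, HasDerivAt (fun t : ℝ => exp (-c * t) • g t) 0 t := fun t => by
    refine (((ofRealCLM.hasDerivAt.const_mul (-c)).cexp).smul (h t)).congr_deriv ?_
    simp [smul_smul, mul_comm]
  have := is_const_of_deriv_eq_zero (fun t => (d t).differentiableAt) (fun t => (d t).deriv) t 0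
  simp only [ofReal_zero, mul_zero, exp_zero, one_smul] at this
  rw [← this, smul_smul, ← exp_add]; simp

theorem d2 {v : ℝ → E} {t : ℝ} {w : E} (hd : HasDerivAt v w t) :
    HasDerivAt (fun t => ‖v t‖ ^ 2) (2 * (inner ℂ (v t) w).re) t := by
  simp only [← inner_self_eq_norm_sq (𝕜 := ℂ)]
  refine (reCLM.hasFDerivAt.comp_hasDerivAt t (hd.inner ℂ hd)).congr_deriv ?_
  rw [reCLM_apply, add_re, ← inner_conj_symm w, conj_re]; ring

theorem core' {μ κ r R C θ δ : ℝ} (μ0 : 0 < μ) (mk : μ ≤ κ)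
    (hμ : ∀ z, μ * ‖z‖ ^ 2 ≤ (inner ℂ z (A z)).re) (hκ : ∀ z, (inner ℂ z (A z)).re ≤ κ * ‖z‖ ^ 2)
    (h2 : κ < 2 * μ) (r0 : 0 < r) (R0 : 0 < R) (hR : R ^ 2 = 1 + r ^ 2)
    (hC : C * (2 * μ - κ) * r = R * (μ + r ^ 2 * κ)) (θ0 : 0 ≤ θ) (hθ : θ * (κ - μ) = 0) (δ0 : 0 < δ) :
    ∃ ε > 0, ∀ T, 0 ≤ T → ∀ (h : ℝ → E → E) (v : ℝ → E) (y : E), θ * Real.exp ((2 * μ - κ) * T) ≤ 1 →
      ‖y‖ = 1 → AbsolutelyContinuousOnInterval v 0 T → (∀ t ∈ Icc 0 T, v t ∈ ball (0 : E) 1) →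
      (∀ᵐ t, t ∈ Icc 0 T → HasDerivAt v (-h t (v t)) t ∧ NA A (h t)) → ‖v 0‖ ≤ ε →
      (inner ℂ y (U A T (v T))).re ≤ (inner ℂ y (v 0)).re + (C + δ) * (1 - θ) * ‖v 0‖ ^ 2 := by
  obtain ⟨ε, ε0, H⟩ := core μ0 mk hμ hκ h2 r0 R0 hR hC θ0 hθ δ0
  refine ⟨ε, ε0, fun T hT h v y hθT hy ac vb ode hε => ?_⟩
  have e : ∀ t : ℝ, U (A†) t = (U A t)† := fun t => by
    rw [U, U, ← ContinuousLinearMap.star_eq_adjoint, ← ContinuousLinearMap.star_eq_adjoint,
      NormedSpace.star_exp]; simp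
  have := H T hT h v (fun t => U (A†) t y) hθT (cU _ _) (fun t w => by
    rw [(dU _ _ _).deriv, ContinuousLinearMap.adjoint_inner_left]) (fun t ht => ?_) ac vb ode hε
  · rwa [U0, e, ContinuousLinearMap.adjoint_inner_left] at this
  have d := fun t => (((hasDerivAt_id' t).const_mul (-(2 * κ))).exp).mul (d2 (dU (A†) y t))
  have := antitone_of_deriv_nonpos (fun t => (d t).differentiableAt) (fun t => by
    have := mul_le_mul_of_nonneg_left (hκ (U (A†) t y)) (Real.exp_pos (-(2 * κ) * t)).le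
    rw [(d t).deriv, ContinuousLinearMap.adjoint_inner_right, ← inner_conj_symm, conj_re]
    linarith) ht
  simp only [Pi.mul_apply, U0, hy, mul_zero, Real.exp_zero] at this
  refine le_of_sq_le_sq ?_ (Real.exp_pos _).le
  refine le_of_mul_le_mul_left (this.trans_eq ?_) (Real.exp_pos (-(2 * κ) * t))
  rw [← Real.exp_nat_mul, ← Real.exp_add]; ring_nf; simp

theorem extr {e e' : E} {α β : ℂ} {a σ : ℝ} (he : A e = α • e)
    (he' : ∀ z, inner ℂ e' (A z) = β * inner ℂ e' z) (o : inner ℂ e' e = 0) (a0 : 0 ≤ a)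
    (hσ : σ = 2 * β.re - α.re) (σ0 : σ ≠ 0) (hp : ∀ z, z ≠ 0 → 0 < (inner ℂ z (A z)).re)
    (ha : ∀ z, a * ‖inner ℂ e z‖ * ‖inner ℂ e' z‖ ^ 2 ≤ ‖z‖ * (inner ℂ z (A z)).re) :
    ∃ (h : ℝ → E → E) (v : E → ℝ → E), (∀ t, Differentiable ℂ (h t) ∧ h t 0 = 0 ∧ fderiv ℂ (h t) 0 = A ∧
      ∀ z ∈ ball (0 : E) 1, z ≠ 0 → 0 < (inner ℂ z (h t z)).re) ∧ (∀ z, Continuous (h · z)) ∧
      ∀ z ∈ ball (0 : E) 1, ContDiff ℝ 1 (v z) ∧ v z 0 = z ∧ (∀ t, 0 ≤ t → v z t ∈ ball (0 : E) 1) ∧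
        (∀ t, HasDerivAt (v z) (-h t (v z t)) t) ∧ ∀ t, U A t (v z t) =
          z + ((a * (1 - Real.exp (-σ * t)) / σ : ℝ) * inner ℂ e' z ^ 2) • e := by
  obtain ⟨h, hh⟩ : ∃ h : ℝ → E → E, h = fun (t : ℝ) z =>
    A z + (-(a * exp ((2 * β - α - σ) * t)) * inner ℂ e' z ^ 2) • e := ⟨_, rfl⟩
  have pos : ∀ t, ∀ z ∈ ball (0 : E) 1, z ≠ 0 → 0 < (inner ℂ z (h t z)).re := fun t z hz z0 => by
    have := (abs_le.1 (abs_re_le_norm (-(a * exp ((2 * β - α - σ) * t)) * inner ℂ e' z ^ 2 *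
      inner ℂ z e))).1
    rw [norm_mul, norm_mul, norm_neg, norm_mul, norm_exp, norm_pow, norm_inner_symm z, norm_real,
      Real.norm_of_nonneg a0, show ((2 * β - α - σ) * t).re = 0 by simp [hσ], Real.exp_zero] at this
    have := mul_lt_of_lt_one_left (hp z z0) (mem_ball_zero_iff.1 hz)
    rw [hh, inner_add_right, inner_smul_right, add_re]
    linarith [ha z]
  have u1 : ∀ t, U A t e = exp (α * t) • e := fun t => by
    simpa [U0] using eig (g := fun t => U A t e) (c := α) (fun t => by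
      simpa [dU', he] using dU A e t) t
  have u2 : ∀ z t, inner ℂ e' (U (-A) t z) = exp (-β * t) * inner ℂ e' z := fun z t => by
    simpa [U0] using eig (g := fun t => inner ℂ e' (U (-A) t z)) (c := -β) (fun t => by
      simpa [he'] using (hasDerivAt_const t e').inner ℂ (dU (-A) z t)) t
  obtain ⟨v, hv⟩ : ∃ v : E → ℝ → E, v = fun z (t : ℝ) => U (-A) t z +
    (a * (1 - exp (-σ * t)) / σ * inner ℂ e' z ^ 2 * exp (-α * t)) • e := ⟨_, rfl⟩
  have σ1 : (σ : ℂ) ≠ 0 := by exact_mod_cast σ0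
  have dv : ∀ z t, HasDerivAt (v z) (-h t (v z t)) t := fun z t => by
    rw [hv]
    refine ((dU (-A) z t).add ((((((ofRealCLM.hasDerivAt.const_mul (-σ : ℂ)).cexp.const_sub 1).const_mul
      (a : ℂ)).div_const σ).mul_const _).mul (ofRealCLM.hasDerivAt.const_mul (-α)).cexp |>.smul_const
      e)).congr_deriv ?_
    simp only [hh, map_add, map_smul, he, inner_add_right, inner_smul_right, o, u2, smul_smul, neg_add,
      neg_apply, add_assoc, ← neg_smul, ← add_smul, ofRealCLM_apply, ofReal_one]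
    congr 2
    rw [show (2 * β - α - σ) * t = -σ * t + -α * t - 2 * (-β * t) by ring, exp_sub, exp_add,
      show 2 * (-β * t) = (2 : ℕ) * (-β * t) by simp, exp_nat_mul]
    field_simp; ring
  have di : Differentiable ℂ fun z => inner ℂ e' z := (innerSL ℂ e').differentiable
  refine ⟨h, v, fun t => ⟨by rw [hh]; fun_prop, by simp [hh], ?_, pos t⟩, fun z => by rw [hh]; fun_prop,
    fun z hz => ⟨?_, by simp [hv, U0], fun t ht => ?_, dv z, fun t => ?_⟩⟩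
  · have := (A.hasFDerivAt.add ((((innerSL ℂ e').hasFDerivAt (x := 0)).pow 2).const_mul
      (-(a * exp ((2 * β - α - σ) * t))) |>.smul_const e)).fderiv
    rw [hh]
    exact this.trans (by ext; simp)
  · have : ContDiff ℝ 1 ofReal := ofRealCLM.contDiff
    rw [hv]
    exact (cU _ _).add (ContDiff.smul (by fun_prop (disch := exact σ1)) contDiff_const)
  · obtain ⟨ρ, h1, h2⟩ := exists_between (mem_ball_zero_iff.1 hz)
    have ρ0 := (norm_nonneg z).trans_lt h1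
    have := image_le_of_deriv_right_lt_deriv_boundary (a := 0) (b := t)
      (fun s _ => (d2 (dv z s)).continuousAt.continuousWithinAt)
      (fun s _ => (d2 (dv z s)).hasDerivWithinAt) (B := fun _ => ρ ^ 2) (B' := fun _ => 0)
      (by simp only [hv, U0]; simp; gcongr) (fun s => hasDerivAt_const _ _) (fun s _ hs => by
        have n := (sq_eq_sq₀ (norm_nonneg _) ρ0.le).1 hs
        have := pos s (v z s) (by simpa [n] using h2) (norm_pos_iff.1 (n ▸ ρ0))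
        rw [inner_neg_right, neg_re]; linarith) ⟨ht, le_rfl⟩
    exact mem_ball_zero_iff.2 ((le_of_sq_le_sq this ρ0.le).trans_lt h2)
  · simp only [hv, map_add, map_smul, Uinv, u1, smul_smul, mul_assoc, ← exp_add]
    simp

omit [CompleteSpace E] [NormedSpace ℝ E] [IsScalarTower ℝ ℂ E] in
theorem bas {n : ℕ} (b : OrthonormalBasis (Fin n) ℂ E) {l : Fin n → ℂ} (hA : ∀ k, A (b k) = l k • b k)
    {i j : Fin n} (ij : i ≠ j) {μ κ a : ℝ} (μ0 : 0 < μ) (hi : ∀ k, (l k).re ≤ κ) (hj : ∀ k, μ ≤ (l k).re) :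
    (∀ z, inner ℂ (b j) (A z) = l j * inner ℂ (b j) z) ∧
    (∀ z, μ * ‖z‖ ^ 2 ≤ (inner ℂ z (A z)).re) ∧ (∀ z, (inner ℂ z (A z)).re ≤ κ * ‖z‖ ^ 2) ∧
    ((∀ x y : ℝ, 0 ≤ x → 0 ≤ y → x ^ 2 + y ^ 2 ≤ 1 →
      0 ≤ (l i).re * x ^ 2 + (l j).re * y ^ 2 - a * x * y ^ 2) →
      ∀ z, a * ‖inner ℂ (b i) z‖ * ‖inner ℂ (b j) z‖ ^ 2 ≤ ‖z‖ * (inner ℂ z (A z)).re) := by
  have h1 : ∀ k z, inner ℂ (b k) (A z) = l k * inner ℂ (b k) z := fun k z => by
    have : ((innerSL ℂ (b k)).comp A : E →ₗ[ℂ] ℂ) = (l k • innerSL ℂ (b k) : E →L[ℂ] ℂ) :=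
      b.toBasis.ext fun m => by
        rcases eq_or_ne k m with rfl | km
        · simp [hA, inner_smul_right]
        · simp [hA, inner_smul_right, b.inner_eq_zero km]
    exact LinearMap.congr_fun this z
  have h2 : ∀ z, (inner ℂ z (A z)).re = ∑ k, (l k).re * ‖inner ℂ (b k) z‖ ^ 2 := fun z => by
    rw [← b.sum_inner_mul_inner, re_sum]
    refine Finset.sum_congr rfl fun k _ => ?_
    rw [h1, ← inner_conj_symm z, mul_left_comm, conj_mul', ← ofReal_pow, re_mul_ofReal]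
  have h3 := fun z => (b.sum_sq_norm_inner_right z).symm
  refine ⟨h1 j, fun z => ?_, fun z => ?_, fun ha z => ?_⟩
  · rw [h2, h3, Finset.mul_sum]; gcongr; exact hj _
  · rw [h2, h3, Finset.mul_sum]; gcongr; exact hi _
  rcases eq_or_ne z 0 with rfl | z0
  · simp
  have n0 := norm_pos_iff.2 z0
  have s : ∀ f : Fin n → ℝ, (∀ k, 0 ≤ f k) → f i + f j ≤ ∑ k, f k := fun f hf => by
    rw [← Finset.sum_pair ij]
    exact Finset.sum_le_sum_of_subset_of_nonneg (Finset.subset_univ _) fun k _ _ => hf k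
  have s1 := (s _ fun k => sq_nonneg _).trans_eq (h3 z).symm
  have s2 := (s _ fun k => mul_nonneg (μ0.le.trans (hj k)) (sq_nonneg _)).trans_eq (h2 z).symm
  have := mul_nonneg (pow_pos n0 3).le (ha (‖inner ℂ (b i) z‖ / ‖z‖) (‖inner ℂ (b j) z‖ / ‖z‖)
    (by positivity) (by positivity) (by field_simp; exact s1))
  refine le_trans ?_ (mul_le_mul_of_nonneg_left s2 n0.le)
  rw [← sub_nonneg]
  refine this.trans_eq (by field_simp)

end Pool.Agent.H.MP_b9b9c0_an
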